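import Pool.Agent.H18.HIT.Basic

/-!
# Backward orbits: a hypersurface which does not contain the forward orbit of the first point
# avoids infinitely many points of the backward orbit
-/

set_option autoImplicit false

open MvPolynomial
open Pool.Agent.H12.ZD (pmap)
open Pool.Agent.H18.HIT

namespace Pool.Agent.H2.EDV

/-- a polynomial which vanishes at all late points of a backward orbit vanishes on the forward
orbit of the first point -/
theorem mem_van_of_late {N : ℕ} {k : Type} [Field k] {G : Tup N k} {x : ℕ → Fin N → k}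
    (hx : ∀ j, pmap G (x (j + 1)) = x j) {q : Po N k} {i₀ : ℕ}
    (hq : ∀ j, i₀ ≤ j → eval (x j) q = 0) : q ∈ van G (x 0) := by
  classical
  -- the ideals of the late points
  obtain ⟨W, hW⟩ : ∃ W : ℕ →o Ideal (Po N k), ∀ i c, c ∈ W i ↔ ∀ j, i ≤ j → eval (x j) c = 0 := by
    refine ⟨⟨fun i =>
      { carrier := {c | ∀ j, i ≤ j → eval (x j) c = 0}
        add_mem' := ?_
        zero_mem' := ?_
        smul_mem' := ?_ }, ?_⟩, fun i c => Iff.rfl⟩
    · intro a b ha hb j hj
      rw [map_add, ha j hj, hb j hj, add_zero]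
    · intro j _
      rw [map_zero]
    · intro a b hb j hj
      rw [smul_eq_mul, map_mul, hb j hj, mul_zero]
    · intro i i' hi c hc j hj
      exact hc j (hi.trans hj)
  obtain ⟨J, hJ⟩ := monotone_stabilizes_iff_noetherian.mpr
    (inferInstance : IsNoetherian (Po N k) (Po N k)) W
  -- invariance
  have hinv : ∀ c, c ∈ W J → aeval G c ∈ W J := by
    intro c hc
    have h1 : aeval G c ∈ W (J + 1) := by
      rw [hW]
      intro j hj
      obtain ⟨j, rfl⟩ : ∃ j', j = j' + 1 := ⟨j - 1, by omega⟩
      have h2 := (hW J c).1 hc j (by omega)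
      rw [← hx j] at h2
      rw [eval_aeval]
      exact h2
    rwa [← hJ (J + 1) (Nat.le_succ J)] at h1
  have hit : ∀ n c, c ∈ W J → eval ((pmap G)^[n] (x J)) c = 0 := by
    intro n
    induction n with
    | zero =>
      intro c hc
      exact (hW J c).1 hc J le_rfl
    | succ n ih =>
      intro c hc
      have h1 := ih _ (hinv c hc)
      rw [eval_aeval, ← Function.iterate_succ_apply' (pmap G)] at h1
      exact h1
  have hback : ∀ n j, (pmap G)^[n] (x (j + n)) = x j := by
    intro n
    induction n with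
    | zero => exact fun j => rfl
    | succ n ih =>
      intro j
      rw [Function.iterate_succ_apply, ← Nat.add_assoc, hx, ih]
  have hqJ : q ∈ W J := by
    have h1 : q ∈ W (max i₀ J) := (hW _ q).2 fun j hj => hq j ((le_max_left _ _).trans hj)
    rwa [← hJ _ (le_max_right i₀ J)] at h1
  intro n
  have h1 := hit (n + J) q hqJ
  have h2 := hback J 0
  rw [Nat.zero_add] at h2
  rw [Function.iterate_add_apply, h2] at h1
  exact h1

/-- **infinitely many points of a backward orbit avoid a given hypersurface** -/
theorem hit_inf {N : ℕ} {k : Type} [Field k] {G : Tup N k} {x : ℕ → Fin N → k}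
    (hx : ∀ j, pmap G (x (j + 1)) = x j) {q : Po N k} (hq : q ∉ van G (x 0)) (i₀ : ℕ) :
    ∃ j, i₀ ≤ j ∧ eval (x j) q ≠ 0 := by
  by_contra hcon
  push Not at hcon
  exact hq (mem_van_of_late hx hcon)

/-- the same with the iterates of a map, as they are given by the theorem on backward orbits -/
theorem hit_inf_it {N : ℕ} {K : Type} [Field K] {F : Tup N K} {k : ℕ} {x : ℕ → Fin N → K}
    (hx : ∀ j, (pmap F)^[k] (x (j + 1)) = x j) {q : Po N K} (hq : q ∉ van (it F k) (x 0))
    (i₀ : ℕ) : ∃ j, i₀ ≤ j ∧ eval (x j) q ≠ 0 :=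
  hit_inf (fun j => by rw [pmap_it]; exact hx j) hq i₀

end Pool.Agent.H2.EDV
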