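import Pool.Agent.H2.EDV.Targets
import Pool.Agent.H73.ED.INM

/-!
# Row VGB: the degree of forms at the point and at the iterate
-/

set_option autoImplicit false

open MvPolynomial Pool.Agent.H18.HIT Pool.Agent.H18.HX
open Pool.Agent.H8.TD (lc dg)
open Pool.Agent.H2.ED
open Pool.Agent.H18.EDB (dgm)

namespace Pool.Agent.H2.EDV

theorem pf_VGB : T_VGB := by
  classical
  intro ν m j a B k K _ _ _ _ P ξ τ hG hj hB p p' hp hp'
  obtain ⟨φ, hφ⟩ : ∃ φ : Fin ν → Fin (ν + 2) → K, φ = fun i : Fin ν =>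
    if (i : ℕ) < j then pn τ ξ m else ξ := ⟨_, rfl⟩
  obtain ⟨q, hq⟩ : ∃ q : Fin ν → Po (ν + 2) k, q = fun i : Fin ν =>
    if h : (i : ℕ) < j then p ⟨i, h⟩ else p' ⟨i - j, by have := i.2; omega⟩ := ⟨_, rfl⟩
  have hφ0 : ∀ i : Fin ν, (i : ℕ) < j → φ i = pn τ ξ m := fun i hi => by
    rw [hφ]
    exact if_pos hi
  have hφ1 : ∀ i : Fin ν, j ≤ (i : ℕ) → φ i = ξ := fun i hi => by
    rw [hφ]
    exact if_neg (by omega)
  have hq0 : ∀ (i : Fin ν) (l : Fin j), (i : ℕ) = l → q i = p l := by
    intro i l hi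
    have := l.2
    rw [hq]
    simp only
    rw [dif_pos (by omega)]
    congr 1
    exact Fin.ext hi
  have hq1 : ∀ (i : Fin ν) (l : Fin (ν - j)), (i : ℕ) = l + j → q i = p' l := by
    intro i l hi
    rw [hq]
    simp only
    rw [dif_neg (by omega)]
    congr 1
    exact Fin.ext (by simp only; omega)
  have hset : Set.range (fun i => aeval (pn τ ξ m) (p i)) ∪
      Set.range (fun i => aeval ξ (p' i)) =
      Set.range fun i => aeval (φ i) (q i) / aeval (φ i) (1 : Po (ν + 2) k) := by
    ext x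
    constructor
    · rintro (⟨l, rfl⟩ | ⟨l, rfl⟩)
      · have := l.2
        refine ⟨⟨l, by omega⟩, ?_⟩
        simp only
        rw [hφ0 _ l.2, hq0 _ l rfl, map_one, div_one]
      · have := l.2
        refine ⟨⟨l + j, by omega⟩, ?_⟩
        simp only
        rw [hφ1 _ (Nat.le_add_left j l), hq1 _ l rfl, map_one, div_one]
    · rintro ⟨i, rfl⟩
      have := i.2
      simp only
      rcases Nat.lt_or_ge (i : ℕ) j with hi | hi
      · left
        refine ⟨⟨i, hi⟩, ?_⟩
        rw [hφ0 i hi, hq0 i ⟨i, hi⟩ rfl, map_one, div_one]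
      · right
        refine ⟨⟨i - j, by omega⟩, ?_⟩
        rw [hφ1 i hi, hq1 i ⟨i - j, by omega⟩ (by simp only; omega), map_one, div_one]
  rw [hset]
  have h1 := Pool.Agent.H73.ED.pf_INM k K ν (ν + 2) B φ q (fun _ => 1) (fun _ => a + 1)
    (IntermediateField.fg_def.2 ⟨Set.range ξ, Set.finite_range _, hG.top⟩) hG.trd
    (fun s => by
      have h2 := hB s
      unfold dgm at h2
      rw [hφ]
      exact h2)
    (fun i => by
      rw [hq]
      simp only
      split_ifs
      · exact (hp _).trans (Nat.le_succ a)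
      · exact (hp' _).trans (Nat.le_succ a))
    (fun i => by
      rw [totalDegree_one]
      exact Nat.zero_le _)
    (fun i => by
      rw [map_one]
      exact one_ne_zero)
  rw [Finset.prod_const, Finset.card_univ, Fintype.card_fin] at h1
  exact h1

end Pool.Agent.H2.EDV
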