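import Pool.Agent.H2.EDV.VDG
import Pool.Agent.H2.EDV.VGB
import Pool.Agent.H4.EDV.VHT
import Pool.Agent.H50.EDV.VID
import Pool.Agent.H72.EDV.VMA
import Pool.Agent.H72.EDV.VPE
import Pool.Agent.H78.EDV.VSB
import Pool.Agent.H88.EDV.VDE
import Pool.Agent.H88.EDV.VLN
import Pool.Agent.H88.EDV.VSE
import Pool.Agent.H65.ED.FLV
import Pool.Agent.H45.ED.VDM
import Pool.Agent.H42.EDB.CHN

/-!
# Heights on totally invariant subvarieties
-/

set_option autoImplicit false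

namespace Pool.Agent.H2.EDV.Al

theorem vpe : T_VPE := Pool.Agent.H72.EDV.pf_VPE
theorem vde : T_VDE := Pool.Agent.H88.EDV.pf_VDE
theorem vdg : T_VDG := pf_VDG pf_VGB
theorem vid : T_VID := Pool.Agent.H50.EDV.pf_VID
theorem vse : T_VSE := Pool.Agent.H88.EDV.pf_VSE vid
theorem vht : T_VHT := Pool.Agent.H4.EDV.pf_VHT Pool.Agent.H72.EDV.pf_VMA
theorem vln : T_VLN := Pool.Agent.H88.EDV.pf_VLN

/-- **the heights of the points of a totally invariant subvariety**, backward form -/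
theorem vsb : Pool.Agent.H18.EDB.T_VSB :=
  Pool.Agent.H78.EDV.pf_VSB Pool.Agent.H65.ED.pf_FLV Pool.Agent.H45.ED.pf_VDM vpe vde vdg vid vse
    vht vln Pool.Agent.H42.EDB.pf_CHN

end Pool.Agent.H2.EDV.Al
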