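import Pool.Agent.H18.EDB.Targets
import Pool.Agent.H8.EDA.Targets

/-!
# Zariski dense orbits in dimension `ν`: heights on totally invariant closed subsets, the targets
-/

open MvPolynomial
open Pool.Agent.H12.ZD (pmap)
open Pool.Agent.H18.HIT Pool.Agent.H18.HX Pool.Agent.H18.VZ
open Pool.Agent.H8.ZA (HFam Const NA)
open Pool.Agent.H8.TD (lc dg Cop)
open Pool.Agent.H8.TX (hn mxn szn)
open Pool.Agent.H2.ED
open Pool.Agent.H18.TE (lg Gc)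
open Pool.Agent.H18.TXB (avn)
open Pool.Agent.H18.EDB (dgm T_CHN T_VSB)
open Pool.Agent.H8.EDA (T_VSF)

namespace Pool.Agent.H2.EDV

/-! ## A. Fields -/

/-- general linear forms generate a finite extension -/
def T_VPE : Prop := ∀ (N : ℕ) (k K : Type) [Field k] [CharZero k] [Field K] [Algebra k K]
  (M : IntermediateField k K) (η : Fin N → K), IntermediateField.adjoin k (Set.range η) = ⊤ →
  FiniteDimensional M K → ∃ s : Fin N → Fin N → k, (Matrix.of s).det ≠ 0 ∧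
    ∀ j, IntermediateField.adjoin M {lc (s j) η} = ⊤

/-- the degree of the minimal equation -/
def T_VDE : Prop := ∀ (ρ E Y : ℕ) (k K : Type) [Field k] [Infinite k] [Field K] [Algebra k K]
  (μ : Fin ρ → K) (z : K) (Cf : Fin (E + 1) → Po (ρ + 1) k), AlgebraicIndependent k μ →
  FiniteDimensional (IntermediateField.adjoin k (Set.range μ)) K →
  (∀ j, (Cf j).IsHomogeneous Y) → Cf 0 ≠ 0 →
  Irreducible (∑ j : Fin (E + 1), Polynomial.C (Cf j) * Polynomial.X ^ (E - (j : ℕ))) →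
  ∑ j : Fin (E + 1), aeval (Fin.cons 1 μ : Fin (ρ + 1) → K) (Cf j) * z ^ (E - (j : ℕ)) = 0 →
  E ≤ dg k (Set.range μ)

/-- the degree of forms at the point and at the iterate -/
def T_VGB : Prop := ∀ (ν m j a B : ℕ) (k K : Type) [Field k] [CharZero k] [Field K]
  [Algebra k K] (P : Po (ν + 2) k) (ξ : Fin (ν + 2) → K) (τ : K →ₐ[k] K), Gp P ξ → j ≤ ν →
  (∀ s, dgm k (pn τ ξ m) ξ j s ≤ B) →
  ∀ (p : Fin j → Po (ν + 2) k) (p' : Fin (ν - j) → Po (ν + 2) k),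
  (∀ i, (p i).totalDegree ≤ a) → (∀ i, (p' i).totalDegree ≤ a) →
  dg k (Set.range (fun i => aeval (pn τ ξ m) (p i)) ∪ Set.range (fun i => aeval ξ (p' i))) ≤
    (a + 1) ^ ν * B

/-- the degrees of linear forms at the point and at the iterate, on an invariant closed subset -/
def T_VDG : Prop := ∀ (ν r₀ r d k : ℕ) (P : Po (ν + 2) Qb) (F : Tup (ν + 2) Qb)
  (V : Ideal (Po (ν + 2) Qb)) (K : Type) [Field K] [Algebra Qb K] (ξ : Fin (ν + 2) → K)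
  (τ : K →ₐ[Qb] K) (κ : Type) [Field κ] [Algebra Qb κ] (η : Fin (ν + 2) → κ) (τV : κ →ₐ[Qb] κ),
  Hyp P r₀ → (∀ i, (F i).IsHomogeneous d) → 1 ≤ d → Slf (Ideal.span {P}) F → Fd P F ξ τ →
  1 ≤ k → V.IsPrime → Hmi V → X 1 ∉ V → P ∈ V → (∀ q, aeval (it F k) q ∈ V ↔ q ∈ V) →
  pderiv 0 P ∉ V → (jm P (it F k)).det ∉ V → Fv V r (it F k) η τV → 1 ≤ r → r + 2 ≤ ν →
  ∃ C_V : ℕ, ∀ n B : ℕ,
    ((∀ s, dgm Qb (pn τ ξ (k * n)) ξ (ν - 3) s ≤ B) →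
      ∀ (s : Fin (ν + 2) → Qb) (t : Fin (r - 1) → Fin (ν + 2) → Qb),
        dg Qb (insert (lc s η) (Set.range fun i => lc (t i) fun j => τV^[n] (η j))) ≤ C_V * B) ∧
    ((∀ s, dgm Qb (pn τ ξ (k * n)) ξ 3 s ≤ B) →
      ∀ (s : Fin (ν + 2) → Qb) (t : Fin (r - 1) → Fin (ν + 2) → Qb),
        dg Qb (insert (lc s fun j => τV^[n] (η j)) (Set.range fun i => lc (t i) η)) ≤ C_V * B)

/-! ## B. Points -/

/-- relations between a point and its image -/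
def T_VID : Prop := ∀ (ν r D n : ℕ) (k κ : Type) [Field k] [Field κ] [Algebra k κ]
  (V : Ideal (Po (ν + 2) k)) (G : Tup (ν + 2) k) (η : Fin (ν + 2) → κ) (τV : κ →ₐ[k] κ),
  (∀ i, (G i).IsHomogeneous D) → V.IsPrime → Hmi V → (∀ q, aeval G q ∈ V ↔ q ∈ V) →
  Fv V r G η τV → ∀ Q : MvPolynomial (Fin (ν + 2) ⊕ Fin (ν + 2)) k,
  aeval (Sum.elim η fun i => τV^[n] (η i)) Q = 0 → ∀ x : Fin (ν + 2) → k,
  (∀ q ∈ V, eval x q = 0) → x 1 = 1 → (pmap G)^[n] x 1 ≠ 0 →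
  eval (Sum.elim x (af ((pmap G)^[n] x))) Q = 0

/-- a generating linear form separates the points of the general fibres -/
def T_VSE : Prop := ∀ (ν r D n : ℕ) (k κ : Type) [Field k] [Field κ] [Algebra k κ]
  (V : Ideal (Po (ν + 2) k)) (G : Tup (ν + 2) k) (η : Fin (ν + 2) → κ) (τV : κ →ₐ[k] κ)
  (a : Fin r → Fin (ν + 2)) (s : Fin (ν + 2) → k),
  (∀ i, (G i).IsHomogeneous D) → V.IsPrime → Hmi V → (∀ q, aeval G q ∈ V ↔ q ∈ V) →
  Fv V r G η τV →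
  FiniteDimensional (IntermediateField.adjoin k (Set.range fun i => τV^[n] (η (a i)))) κ →
  IntermediateField.adjoin (IntermediateField.adjoin k (Set.range fun i => τV^[n] (η (a i))))
    {lc s η} = ⊤ →
  ∃ q : Po (ν + 2) k, aeval η q ≠ 0 ∧ ∀ x x' : Fin (ν + 2) → k, (∀ p ∈ V, eval x p = 0) →
    (∀ p ∈ V, eval x' p = 0) → x 1 = 1 → x' 1 = 1 → (pmap G)^[n] x 1 ≠ 0 →
    (pmap G)^[n] x' 1 ≠ 0 → af ((pmap G)^[n] x) = af ((pmap G)^[n] x') →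
    eval (af ((pmap G)^[n] x)) q ≠ 0 → lc s x = lc s x' → x = x'

/-! ## C. Heights -/

/-- the roots and the coefficients of a polynomial -/
def T_VMA : Prop := ∀ (v : AbsoluteValue Qb ℝ) (E : ℕ) (c : Fin (E + 1) → Qb) (Z : Finset Qb),
  c 0 ≠ 0 → (∀ z ∈ Z, ∑ j : Fin (E + 1), c j * z ^ (E - (j : ℕ)) = 0) →
  v (c 0) * ∏ z ∈ Z, max 1 (v z) ≤ ((E : ℝ) + 1) ^ E * mxn v c ∧
  (NA v → v (c 0) * ∏ z ∈ Z, max 1 (v z) ≤ mxn v c)

/-- the heights of the roots of the equation at a point -/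
def T_VHT : Prop := ∀ (ρ E Y : ℕ) (Cf : Fin (E + 1) → Po (ρ + 1) Qb),
  (∀ j, (Cf j).IsHomogeneous Y) → ∀ (K' : IntermediateField ℚ Qb) (F' : HFam K'),
  (∀ j, ∀ c ∈ (Cf j).coeffs, c ∈ K') → ∃ c : ℝ, ∀ (Γ : Finset (Qb ≃ₐ[K'] Qb))
    (L : IntermediateField K' Qb), Gc K' Γ L → ∀ w : Fin ρ → Qb, (∀ i, w i ∈ L) →
    eval (Fin.cons 1 w : Fin (ρ + 1) → Qb) (Cf 0) ≠ 0 → ∀ Z : Finset Qb,
    (∀ z ∈ Z, z ∈ L ∧ ∑ j : Fin (E + 1),
      eval (Fin.cons 1 w : Fin (ρ + 1) → Qb) (Cf j) * z ^ (E - (j : ℕ)) = 0) →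
    ∑ z ∈ Z, avn F' Γ ![z] ≤ Y * avn F' Γ w + Γ.card * c

/-- heights in linear coordinates -/
def T_VLN : Prop := ∀ (N : ℕ) (s : Fin N → Fin N → Qb), (Matrix.of s).det ≠ 0 →
  ∀ (K' : IntermediateField ℚ Qb) (F' : HFam K'), ∃ c : ℝ, ∀ x : Fin N → Qb,
    hn F' x ≤ (∑ j, hn F' ![lc (s j) x]) + c

end Pool.Agent.H2.EDV
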