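import Pool.Agent.H2.EDV.Targets
import Pool.Agent.H2.ED.Gam2

/-!
# Zariski dense orbits in dimension `ν`: degrees on invariant closed subsets
-/

set_option autoImplicit false

open MvPolynomial
open Pool.Agent.H12.ZD (pmap)
open Pool.Agent.H18.HIT Pool.Agent.H18.HX Pool.Agent.H18.VZ
open Pool.Agent.H8.TD (lc dg)
open Pool.Agent.H2.ED
open Pool.Agent.H18.EDB (dgm)

namespace Pool.Agent.H2.EDV

/-- generators of a finite extension are independent if their number is the transcendence degree -/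
theorem ind_of_fin {k κ : Type} [Field k] [Field κ] [Algebra k κ] {r : ℕ}
    (htr : Algebra.trdeg k κ = r) (y : Fin r → κ)
    (h : Algebra.IsAlgebraic (IntermediateField.adjoin k (Set.range y)) κ) :
    AlgebraicIndependent k y := by
  classical
  have halg : Algebra.IsAlgebraic (Algebra.adjoin k (Set.range y)) κ :=
    IntermediateField.isAlgebraic_adjoin_iff_top.1 h
  obtain ⟨s, hs, hb⟩ := exists_isTranscendenceBasis_subset (R := k) (A := κ) (Set.range y)
  have hfin : s.Finite := (Set.finite_range y).subset hs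
  have hcard : s.ncard = r := by
    have h1 := hb.cardinalMk_eq_trdeg
    rw [htr] at h1
    rw [← Nat.card_coe_set_eq, Nat.card, h1, Cardinal.toNat_natCast]
  have hr : (Set.range y).ncard = (Finset.univ.image y).card := by
    rw [← Set.ncard_coe_finset, Finset.coe_image, Finset.coe_univ, Set.image_univ]
  have hr' : (Finset.univ.image y).card ≤ r := by
    have h1 := Finset.card_image_le (s := (Finset.univ : Finset (Fin r))) (f := y)
    rwa [Finset.card_univ, Fintype.card_fin] at h1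
  have hsy : s = Set.range y := Set.eq_of_subset_of_ncard_le hs (by omega) (Set.finite_range y)
  have hinj : Function.Injective y := by
    have h1 : (Finset.univ.image y).card = (Finset.univ : Finset (Fin r)).card := by
      rw [Finset.card_univ, Fintype.card_fin, ← hr, ← hsy, hcard]
    intro i j hij
    exact Finset.card_image_iff.1 h1 (Finset.mem_coe.2 (Finset.mem_univ i))
      (Finset.mem_coe.2 (Finset.mem_univ j)) hij
  have hmem : ∀ i, y i ∈ s := fun i => by
    rw [hsy]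
    exact ⟨i, rfl⟩
  have h1 := hb.1.comp (fun i => (⟨y i, hmem i⟩ : s)) fun i j hij => hinj (congrArg Subtype.val hij)
  exact h1

/-- families with arbitrary index sets -/
theorem dg_fam (hVGB : T_VGB) {ν m j a B : ℕ} {k K : Type} [Field k] [CharZero k] [Field K]
    [Algebra k K] {P : Po (ν + 2) k} {ξ : Fin (ν + 2) → K} {τ : K →ₐ[k] K} (hG : Gp P ξ)
    (hj : j ≤ ν) (hB : ∀ s, dgm k (pn τ ξ m) ξ j s ≤ B) {α β : Type} [Fintype α] [Fintype β]
    (hα : Fintype.card α = j) (hβ : Fintype.card β = ν - j) (p : α → Po (ν + 2) k)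
    (p' : β → Po (ν + 2) k) (hp : ∀ i, (p i).totalDegree ≤ a)
    (hp' : ∀ i, (p' i).totalDegree ≤ a) :
    dg k (Set.range (fun i => aeval (pn τ ξ m) (p i)) ∪ Set.range (fun i => aeval ξ (p' i))) ≤
      (a + 1) ^ ν * B := by
  obtain ⟨e⟩ : Nonempty (Fin j ≃ α) := ⟨(Fintype.equivFinOfCardEq hα).symm⟩
  obtain ⟨e'⟩ : Nonempty (Fin (ν - j) ≃ β) := ⟨(Fintype.equivFinOfCardEq hβ).symm⟩
  have h1 := hVGB ν m j a B k K P ξ τ hG hj hB (p ∘ e) (p' ∘ e') (fun i => hp _) fun i => hp' _
  have h2 : (Set.range fun i => aeval (pn τ ξ m) ((p ∘ e) i)) =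
      Set.range fun i => aeval (pn τ ξ m) (p i) :=
    e.surjective.range_comp (fun i => aeval (pn τ ξ m) (p i))
  have h3 : (Set.range fun i => aeval ξ ((p' ∘ e') i)) = Set.range fun i => aeval ξ (p' i) :=
    e'.surjective.range_comp (fun i => aeval ξ (p' i))
  rw [h2, h3] at h1
  exact h1

theorem card_lt {m p : ℕ} (hp : p ≤ m) : Fintype.card {i : Fin m // (i : ℕ) < p} = p := by
  rw [Fintype.card_congr (⟨fun i => (⟨(i : Fin m), i.2⟩ : Fin p),
    fun i => ⟨⟨i, lt_of_lt_of_le i.2 hp⟩, i.2⟩, fun i => rfl, fun i => rfl⟩ :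
      {i : Fin m // (i : ℕ) < p} ≃ Fin p), Fintype.card_fin]

/-- a linear form -/
noncomputable def lf {N : ℕ} {k : Type} [Field k] (s : Fin N → k) : Po N k := ∑ j, C (s j) * X j

theorem lf_deg {N : ℕ} {k : Type} [Field k] (s : Fin N → k) : (lf s).totalDegree ≤ 1 := by
  have h : (lf s).IsHomogeneous 1 := by
    refine IsHomogeneous.sum _ _ _ fun j _ => ?_
    have h1 := (isHomogeneous_C (Fin N) (s j)).mul (isHomogeneous_X k j)
    rwa [Nat.zero_add] at h1
  exact h.totalDegree_le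

theorem aeval_lf {N : ℕ} {k K : Type} [Field k] [Field K] [Algebra k K] (s : Fin N → k)
    (x : Fin N → K) : aeval x (lf s) = lc s x := by
  rw [lf, map_sum]
  refine Finset.sum_congr rfl fun j _ => ?_
  rw [map_mul, aeval_X, aeval_C, Algebra.smul_def]

theorem iter_lc {N : ℕ} {k K : Type} [Field k] [Field K] [Algebra k K] (τ : K →ₐ[k] K) (n : ℕ)
    (s : Fin N → k) (x : Fin N → K) : τ^[n] (lc s x) = lc s fun j => τ^[n] (x j) := by
  obtain ⟨f, hf⟩ := iter_algHomX τ n
  rw [← hf, lc, map_sum]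
  refine Finset.sum_congr rfl fun j _ => ?_
  rw [map_smul]

/-- the degrees of linear forms on an invariant closed subset -/
theorem vdg_core (hVGB : T_VGB) {ν r₀ r d k : ℕ} {k₀ K κ : Type} [Field k₀] [CharZero k₀]
    [Field K] [Algebra k₀ K] [Field κ] [Algebra k₀ κ] {P : Po (ν + 2) k₀} {F : Tup (ν + 2) k₀}
    {V : Ideal (Po (ν + 2) k₀)} {ξ : Fin (ν + 2) → K} {τ : K →ₐ[k₀] K} {η : Fin (ν + 2) → κ}
    {τV : κ →ₐ[k₀] κ} (hP : Hyp P r₀) (hF : ∀ i, (F i).IsHomogeneous d)
    (hs : Slf (Ideal.span {P}) F) (hFd : Fd P F ξ τ) (hVp : V.IsPrime) (hHm : Hmi V)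
    (hPV : P ∈ V) (hiff : ∀ q, aeval (it F k) q ∈ V ↔ q ∈ V) (hd0 : pderiv 0 P ∉ V)
    (hj0 : (jm P (it F k)).det ∉ V) (hFv : Fv V r (it F k) η τV) :
    ∃ C_V : ℕ, ∀ (n B p j : ℕ) (b : Fin r → Prop) (_ : DecidablePred b)
      (t : Fin r → Fin (ν + 2) → k₀), p ≤ ν - r → p + Fintype.card {i // b i} = j →
      (∀ s, dgm k₀ (pn τ ξ (k * n)) ξ j s ≤ B) →
      dg k₀ (Set.range fun i => if b i then lc (t i) (fun j => τV^[n] (η j)) else lc (t i) η) ≤
        C_V * B := by
  classical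
  have hThom : ∀ i, (it F k i).IsHomogeneous (d ^ k) := it_hom hF k
  obtain ⟨σ, hσ⟩ := iter_algHomX τ k
  have hFdk := fd_it hFd hP hF hs k σ hσ
  obtain ⟨R, ρ, hR⟩ := Pool.Agent.H68.ED.pf_LRG ν r k₀ K κ P V ξ η hPV hFd.gp hFv.gv
  have h0 : aeval η (pderiv 0 P) ≠ 0 := fun h => hd0 ((hFv.gv.iff _ _ hP.hom.pderiv).1 h)
  have hj : aeval η (jm P (it F k)).det ≠ 0 := by
    obtain ⟨D, hD⟩ := jm_hom hP.hom hThom
    exact fun h => hj0 ((hFv.gv.iff _ _ hD).1 h)
  obtain ⟨hrν, hreg, a, hg⟩ := vlm' hP hVp hHm hPV hThom hiff hFdk hFv h0 hj hR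
  refine ⟨(a + 1 + 1) ^ ν, fun n B p j b _ t hp hpj hB => ?_⟩
  obtain ⟨g, hgh, hgl⟩ := hg n p hp
  have hσn : σ^[n] = τ^[k * n] := by
    rw [hσ, ← Function.iterate_mul]
  -- the functions
  have hy : ∀ i, ∃ z : R, ((z : K) = if b i then aeval (pn τ ξ (k * n)) (lf (t i)) else
      aeval ξ (lf (t i))) ∧ ρ z = if b i then lc (t i) (fun j => τV^[n] (η j)) else
      lc (t i) η := by
    intro i
    by_cases hi : b i
    · obtain ⟨z, hz, hz'⟩ := hreg n ⟨aeval ξ (lf (t i)), hR.mem _⟩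
      refine ⟨z, ?_, ?_⟩
      · rw [if_pos hi, hz, hσn]
        exact iter_aeval τ (k * n) _
      · rw [if_pos hi, hz', hR.val, aeval_lf, iter_lc]
    · refine ⟨⟨aeval ξ (lf (t i)), hR.mem _⟩, ?_, ?_⟩
      · rw [if_neg hi]
      · rw [if_neg hi, hR.val, aeval_lf]
  choose y hy hy' using hy
  have hy2 : (fun i => ρ (y i)) = fun i => if b i then lc (t i) (fun j => τV^[n] (η j)) else
      lc (t i) η := funext hy'
  by_cases hfin : Module.Finite (IntermediateField.adjoin k₀ (Set.range fun i => ρ (y i))) κ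
  · have hind : AlgebraicIndependent k₀ (fun i => ρ (y i)) :=
      ind_of_fin hFv.gv.trd _ (Algebra.IsAlgebraic.of_finite _ _)
    have h1 := hgl y hind
    rw [hy2] at h1
    refine h1.trans ?_
    have hbc : Fintype.card {i // ¬ b i} = r - Fintype.card {i // b i} := by
      rw [Fintype.card_subtype_compl, Fintype.card_fin]
    have hpc : Fintype.card {i : Fin (ν - r) // ¬ (i : ℕ) < p} = (ν - r) - p := by
      rw [Fintype.card_subtype_compl, Fintype.card_fin, card_lt hp]
    have hbr : Fintype.card {i // b i} ≤ r := by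
      have := Fintype.card_subtype_le b
      rwa [Fintype.card_fin] at this
    have h2 := dg_fam hVGB (τ := τ) (m := k * n) (a := a + 1) (B := B) hFd.gp (j := j) (by omega)
      hB (α := {i : Fin (ν - r) // (i : ℕ) < p} ⊕ {i // b i})
      (β := {i : Fin (ν - r) // ¬ (i : ℕ) < p} ⊕ {i // ¬ b i})
      (by rw [Fintype.card_sum, card_lt hp, hpj]) (by rw [Fintype.card_sum, hbc, hpc]; omega)
      (Sum.elim (fun i => g i) fun i => lf (t i)) (Sum.elim (fun i => g i) fun i => lf (t i))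
      (by
        rintro (i | i)
        · exact (hgh _).totalDegree_le.trans (Nat.le_succ a)
        · exact (lf_deg _).trans (by omega))
      (by
        rintro (i | i)
        · exact (hgh _).totalDegree_le.trans (Nat.le_succ a)
        · exact (lf_deg _).trans (by omega))
    refine le_of_eq_of_le ?_ h2
    congr 1
    ext x
    simp only [Set.mem_union, Set.mem_range, Sum.exists, Sum.elim_inl, Sum.elim_inr,
      Subtype.exists, wfn, hσn, hy]
    constructor
    · rintro (⟨i, rfl⟩ | ⟨i, rfl⟩)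
      · by_cases hi : (i : ℕ) < p
        · refine Or.inl (Or.inl ⟨i, hi, ?_⟩)
          rw [if_pos hi, iter_aeval]
        · refine Or.inr (Or.inl ⟨i, hi, ?_⟩)
          rw [if_neg hi]
      · by_cases hi : b i
        · refine Or.inl (Or.inr ⟨i, hi, ?_⟩)
          rw [if_pos hi]
        · refine Or.inr (Or.inr ⟨i, hi, ?_⟩)
          rw [if_neg hi]
    · rintro ((⟨i, hi, rfl⟩ | ⟨i, hi, rfl⟩) | (⟨i, hi, rfl⟩ | ⟨i, hi, rfl⟩))
      · refine Or.inl ⟨i, ?_⟩
        rw [if_pos hi, iter_aeval]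
      · refine Or.inr ⟨i, ?_⟩
        rw [if_pos hi]
      · refine Or.inl ⟨i, ?_⟩
        rw [if_neg hi]
      · refine Or.inr ⟨i, ?_⟩
        rw [if_neg hi]
  · rw [← hy2]
    unfold dg
    rw [Module.finrank_of_not_finite hfin]
    exact Nat.zero_le _

theorem pf_VDG (hVGB : T_VGB) : T_VDG := by
  classical
  intro ν r₀ r d k P F V K _ _ ξ τ κ _ _ η τV hP hF _ hs hFd _ hVp hHm _ hPV hiff hd0 hj0 hFv hr
    hrν
  obtain ⟨C_V, h⟩ := vdg_core hVGB hP hF hs hFd hVp hHm hPV hiff hd0 hj0 hFv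
  obtain ⟨r, rfl⟩ : ∃ r', r = r' + 1 := ⟨r - 1, by omega⟩
  refine ⟨C_V, fun n B => ⟨fun hB s t => ?_, fun hB s t => ?_⟩⟩
  · have h1 := h n B (ν - (r + 1) - 2) (ν - 3) (fun i => i ≠ 0) inferInstance
      (Fin.cons s t : Fin (r + 1) → Fin (ν + 2) → Qb) (by omega) (by
        rw [Fintype.card_subtype_compl, Fintype.card_fin]
        simp
        omega) hB
    refine le_of_eq_of_le ?_ h1
    congr 1
    ext x
    simp only [Set.mem_insert_iff, Set.mem_range, Fin.exists_fin_succ, Fin.cons_zero, Fin.cons_succ,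
      ne_eq, not_true_eq_false, if_false, Fin.succ_ne_zero, not_false_eq_true, if_true]
    exact or_congr eq_comm Iff.rfl
  · have h1 := h n B 2 3 (fun i => i = 0) inferInstance
      (Fin.cons s t : Fin (r + 1) → Fin (ν + 2) → Qb) (by omega) (by simp) hB
    refine le_of_eq_of_le ?_ h1
    congr 1
    ext x
    simp only [Set.mem_insert_iff, Set.mem_range, Fin.exists_fin_succ, Fin.cons_zero, Fin.cons_succ,
      if_true, Fin.succ_ne_zero, if_false]
    exact or_congr eq_comm Iff.rfl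

end Pool.Agent.H2.EDV
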